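import Pool.Agent.Lib_helper8.PENT.Frame
import Pool.Agent.Lib_helper8.PENT.ZDefs

/-!
# PENT (MP_892e4c_nt): the weighted family of pentagons (helper97), version 3
-/

set_option autoImplicit false

namespace Pool.Agent.PENT

open Finset

/-- the completely multiplicative function with values `g p` at the primes -/
noncomputable def cm (g : ℕ → ℝ) (m : ℕ) : ℝ := m.factorization.prod fun p k => g p ^ k

/-- the norm `|u| = u.1 + u.2` (used for vectors with positive coordinates) -/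
def nm (u : ℤ × ℤ) : ℤ := u.1 + u.2

/-- The parameters: windows `X^e_j ≤ |u_j| ≤ X^(e_j + ep/50)`, separation `c1` of the directions,
signs `sg` of the determinants, `Y = X^ta`. -/
structure Par where
  e : Fin 5 → ℝ
  ep : ℝ
  c1 : ℝ
  ta : ℝ
  sg : Fin 5 → Fin 5 → ℤ

/-- `P = exp((log X)^(1/100))` -/
noncomputable def PP (X : ℕ) : ℝ := Real.exp (Real.log X ^ (1 / 100 : ℝ))

/-- the weight of the prime `l` in `d_j` (`Y` a real number) -/
noncomputable def wd (Y : ℝ) (l : ℕ) : ℝ := if (l : ℝ) ≤ Y then 1 / 4 else 1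

/-- the weight of the prime `l` in `y_j` -/
noncomputable def wy (P Y : ℝ) (l : ℕ) : ℝ :=
  if l = 2 then 1 else if (l : ℝ) ≤ P then 1 / 2 else if (l : ℝ) ≤ Y then 1 / 4 else 1

/-- the weight of the prime `l` in `n² + 1` -/
noncomputable def wn (Y : ℝ) (l : ℕ) : ℝ := if l = 2 then 1 else if (l : ℝ) ≤ Y then 1 / 2 else 1

/-- `y_j = Q(u_j) / (|d_(j-1)| |d_j|)` -/
def Pol.y (τ : Pol 5) (j : Fin 5) : ℕ :=
  (τ.q j).natAbs / ((τ.d (j - 1)).natAbs * (τ.d j).natAbs)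

/-- the base form `(g, n, g')` of the edge `0` -/
def Pol.base (τ : Pol 5) : ℕ × ℕ × ℕ :=
  ((τ.q 0).natAbs / (τ.d 0).natAbs, τ.n 0, (τ.q 1).natAbs / (τ.d 0).natAbs)

/-- the coordinates of `u_k` with respect to `u_0, u_1` (times `det(u_0, u_1)`) -/
def Pol.ch (τ : Pol 5) (k : Fin 5) : ℤ × ℤ := (dt (τ.u k) (τ.u 1), dt (τ.u 0) (τ.u k))

/-- the same chords -/
def Pol.same (τ τ' : Pol 5) : Prop := τ'.ch 2 = τ.ch 2 ∧ τ'.ch 3 = τ.ch 3 ∧ τ'.ch 4 = τ.ch 4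

/-- the product of the primes which divide `d_0 d_2 d_3` and `d_0' d_2' d_3'` and at which the lines
of the corresponding edges agree -/
def Pol.G (τ τ' : Pol 5) : ℕ :=
  Nat.gcd (Nat.gcd (τ.d 0 * τ.d 2 * τ.d 3).natAbs (τ'.d 0 * τ'.d 2 * τ'.d 3).natAbs)
    (dt (τ.ch 3) (τ'.ch 3)).natAbs

/-- the rotated pentagon -/
def Pol.rot (i : Fin 5) (τ : Pol 5) : Pol 5 := { τ with u := fun j => τ.u (j + i) }

namespace Par

variable (p : Par)

/-- `Y = X^ta` -/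
noncomputable def Y (X : ℕ) : ℝ := (X : ℝ) ^ p.ta

/-- the polygons of vectors -/
structure GP (X : ℕ) (u : Fin 5 → ℤ × ℤ) : Prop where
  pos1 : ∀ j, 0 < (u j).1
  pos2 : ∀ j, 0 < (u j).2
  low : ∀ j, (X : ℝ) ^ p.e j ≤ (nm (u j) : ℝ)
  upp : ∀ j, (nm (u j) : ℝ) ≤ (X : ℝ) ^ (p.e j + p.ep / 50)
  sep : ∀ i j, i ≠ j → p.c1 * ((nm (u i) : ℝ) * (nm (u j) : ℝ)) ≤ (p.sg i j * dt (u i) (u j) : ℝ)
  dp : ∀ j, DP (PP X) (dt (u j) (u (j + 1))).natAbs
  cop : ∀ i j, i ≠ j → IsCoprime (dt (u i) (u (i + 1))) (dt (u j) (u (j + 1)))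
  nice : ∀ i k, k ≠ i → k ≠ i + 1 → IsCoprime (dt (u i) (u (i + 1))) (dt (u i) (u k))

/-- the weight -/
noncomputable def w (X : ℕ) (τ : Pol 5) : ℝ :=
  ∏ j, (cm (wd (p.Y X)) (τ.d j).natAbs * cm (wy (PP X) (p.Y X)) (τ.y j))

/-- the family of pentagons -/
structure TS (X : ℕ) (τ : Pol 5) : Prop where
  ha1 : (X : ℤ) < τ.a
  ha2 : τ.a ≤ 2 * X
  hb1 : (X : ℤ) < τ.b
  hb2 : τ.b ≤ 2 * X
  good : τ.Good
  gp : p.GP X τ.u

open Classical in
/-- the family as a finite set -/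
noncomputable def T (X : ℕ) : Finset (Pol 5) :=
  if h : {τ : Pol 5 | p.TS X τ}.Finite then h.toFinset else ∅

/-- the weight of the base form -/
noncomputable def nu (X : ℕ) (y : ℕ × ℕ × ℕ) : ℝ := cm (wn (p.Y X)) (y.2.1 ^ 2 + 1)

/-- the rotation of the parameters -/
def rot (i : Fin 5) : Par where
  e := fun j => p.e (j + i)
  ep := p.ep
  c1 := p.c1
  ta := p.ta
  sg := fun j k => p.sg (j + i) (k + i)

/-- the same parameters with another `Y` -/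
def at' (t : ℝ) : Par := { p with ta := t }

/-- admissible parameters, all sizes at most `κ` -/
structure Ok (κ : ℝ) : Prop where
  ep0 : 0 < p.ep
  e4 : ∀ j, 4 * p.ep ≤ p.e j
  gap : ∀ j, 4 * p.ep ≤ |p.e j - p.e (j + 1)|
  ek : ∀ j, p.e j ≤ κ
  c10 : 0 < p.c1
  c11 : p.c1 ≤ 1
  sg1 : ∀ i j, p.sg i j = 1 ∨ p.sg i j = -1

/-- the sum over the pairs of pentagons over the same base form in the class `r` -/
noncomputable def pairs (X : ℕ) (r : Pol 5 → Pol 5 → Prop) : ℝ :=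
  ∑ τ ∈ p.T X, p.w X τ * cls (p.T X) (p.w X) Pol.base (p.nu X) r τ

end Par

end Pool.Agent.PENT
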