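import Pool.Agent.Lib_helper97.PENT.T4L

/-!
# PENT: the deterministic statements, linked (helper97)
-/

set_option autoImplicit false

namespace Pool.Agent.PENT

theorem nu_pos : type_of% @nu_pos_pr := @nu_pos_pr
theorem nu_sum : type_of% @nu_sum_pr := @nu_sum_pr

end Pool.Agent.PENT
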