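import Pool.Agent.Lib_helper90.PENT.T1
import Pool.Agent.Lib_helper89.PENT.T2
import Pool.Agent.Lib_helper21.PENT.T3
import Pool.Agent.Lib_helper83.PENT.T5
import Pool.Agent.Lib_helper54.PENT.T6

/-!
# PENT: the deterministic statements, linked (helper97)
-/

set_option autoImplicit false

namespace Pool.Agent.PENT

open Finset

theorem TS_finite : type_of% @TS_finite_pr := @TS_finite_pr

theorem mem_T {p : Par} {X : ℕ} {τ : Pol 5} : τ ∈ p.T X ↔ p.TS X τ := by
  unfold Par.T
  rw [dif_pos (TS_finite p X)]
  simp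

theorem TS_rot : type_of% @TS_rot_pr := @TS_rot_pr
theorem w_rot : type_of% @w_rot_pr := @w_rot_pr
theorem n_rot : type_of% @n_rot_pr := @n_rot_pr
theorem Ok_rot : type_of% @Ok_rot_pr := @Ok_rot_pr
theorem rot_inj : type_of% @rot_inj_pr := @rot_inj_pr
theorem rot_rot_neg : type_of% @rot_rot_neg_pr := @rot_rot_neg_pr
theorem par_rot_rot_neg : type_of% @par_rot_rot_neg_pr := @par_rot_rot_neg_pr
theorem n_bound : type_of% @n_bound_pr := @n_bound_pr
theorem same_class : type_of% @same_class_pr := @same_class_pr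
theorem diag_num : type_of% diag_num_pr := diag_num_pr

end Pool.Agent.PENT
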