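import Pool.Agent.Lib_helper97.PENT.Defs
import Pool.Agent.Lib_helper97.PENT.TopA

set_option autoImplicit false

namespace Pool.Agent.PENT

open Finset

theorem t4_cm_eq (g : ℕ → ℝ) (m : ℕ) : cm g m = ∏ l ∈ m.primeFactors, g l ^ m.factorization l :=
  rfl

theorem t4_cm_pos {g : ℕ → ℝ} (hg : ∀ l, 0 < g l) (m : ℕ) : 0 < cm g m := by
  rw [t4_cm_eq]
  exact Finset.prod_pos fun l _ => pow_pos (hg l) _

theorem t4_cm_one (g : ℕ → ℝ) : cm g 1 = 1 := by
  rw [t4_cm_eq]; simp

theorem t4_cm_mul (g : ℕ → ℝ) {m n : ℕ} (hm : m ≠ 0) (hn : n ≠ 0) :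
    cm g (m * n) = cm g m * cm g n := by
  rw [cm, Nat.factorization_mul hm hn]
  exact Finsupp.prod_add_index' (fun _ => pow_zero _) (fun _ _ _ => pow_add _ _ _)

theorem t4_cm_prime (g : ℕ → ℝ) {l : ℕ} (hl : l.Prime) : cm g l = g l := by
  rw [cm, hl.factorization]
  simp

theorem t4_cm_fmul (f g : ℕ → ℝ) (m : ℕ) : cm (fun l => f l * g l) m = cm f m * cm g m := by
  rw [t4_cm_eq, t4_cm_eq, t4_cm_eq, ← Finset.prod_mul_distrib]
  exact Finset.prod_congr rfl fun l _ => mul_pow _ _ _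

theorem t4_cm_le {f g : ℕ → ℝ} (hf : ∀ l, 0 ≤ f l) (m : ℕ) (h : ∀ l, l.Prime → f l ≤ g l) :
    cm f m ≤ cm g m := by
  rw [t4_cm_eq, t4_cm_eq]
  exact Finset.prod_le_prod (fun l _ => pow_nonneg (hf l) _) fun l hl =>
    pow_le_pow_left₀ (hf l) (h l (Nat.prime_of_mem_primeFactors hl)) _

theorem t4_cm_rpow (c : ℝ) {m : ℕ} (hm : m ≠ 0) : cm (fun l => (l : ℝ) ^ c) m = (m : ℝ) ^ c := by
  rw [t4_cm_eq]
  have h1 : ∀ l ∈ m.primeFactors, ((l : ℝ) ^ c) ^ m.factorization l =
      ((l : ℝ) ^ m.factorization l) ^ c := by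
    intro l _
    rw [← Real.rpow_natCast, ← Real.rpow_mul (Nat.cast_nonneg l), mul_comm,
      Real.rpow_mul (Nat.cast_nonneg l), Real.rpow_natCast]
  rw [Finset.prod_congr rfl h1, Real.finsetProd_rpow _ _ fun l _ => by positivity]
  congr 1
  have h2 := Nat.prod_factorization_pow_eq_self hm
  have h3 : ((m.factorization.prod fun l k => l ^ k : ℕ) : ℝ) = m := by rw [h2]
  rw [← h3, Finsupp.prod]
  push_cast
  rfl

theorem t4_cm_two (m : ℕ) :
    cm (fun l => if l = 2 then (2:ℝ) else 1) m = 2 ^ m.factorization 2 := by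
  rw [t4_cm_eq]
  by_cases h : 2 ∈ m.primeFactors
  · rw [Finset.prod_eq_single_of_mem 2 h]
    · simp
    · intro b _ hb
      simp [hb]
  · rw [Finset.prod_eq_one]
    · rw [← Nat.support_factorization, Finsupp.notMem_support_iff] at h
      rw [h, pow_zero]
    · intro b hb
      have : b ≠ 2 := by rintro rfl; exact h hb
      simp [this]

/-- the convolution bound -/
theorem t4_conv {a b : ℕ → ℝ} (ha : ∀ l, 0 < a l) (hb : ∀ l, 0 < b l) (N : ℕ) (hN : N ≠ 0) :
    ∑ g ∈ N.divisors, cm a g * cm b (N / g) ≤ cm (fun l => a l + b l) N := by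
  induction N using Nat.strong_induction_on with
  | _ N ih =>
    rcases Nat.eq_or_lt_of_le (Nat.one_le_iff_ne_zero.2 hN) with h1 | h1
    · rw [← h1]
      simp [t4_cm_one]
    · set l := N.minFac with hl
      have hlp : l.Prime := Nat.minFac_prime h1.ne'
      obtain ⟨M, hM⟩ := N.minFac_dvd
      rw [← hl] at hM
      have hM0 : M ≠ 0 := by rintro rfl; rw [mul_zero] at hM; exact hN hM
      have hl0 : l ≠ 0 := hlp.ne_zero
      have hlt : M < N := by
        rw [hM]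
        have := hlp.two_le
        have := Nat.pos_of_ne_zero hM0
        nlinarith
      have hI := ih M hlt hM0
      have hsub : N.divisors ⊆ M.divisors ∪ M.divisors.image (l * ·) := by
        intro g hg
        rw [Nat.mem_divisors] at hg
        rw [Finset.mem_union, Finset.mem_image]
        by_cases hd : g ∣ M
        · left; exact Nat.mem_divisors.2 ⟨hd, hM0⟩
        · right
          have hlg : l ∣ g := by
            by_contra hcon
            have hc : Nat.Coprime g l := ((Nat.Prime.coprime_iff_not_dvd hlp).2 hcon).symm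
            exact hd (hc.dvd_of_dvd_mul_left (hM ▸ hg.1))
          obtain ⟨g', rfl⟩ := hlg
          refine ⟨g', Nat.mem_divisors.2 ⟨?_, hM0⟩, rfl⟩
          exact Nat.dvd_of_mul_dvd_mul_left (Nat.pos_of_ne_zero hl0) (hM ▸ hg.1)
      have hnn : ∀ g, 0 ≤ cm a g * cm b (N / g) := fun g =>
        mul_nonneg (t4_cm_pos ha g).le (t4_cm_pos hb _).le
      have e1 : ∑ g ∈ M.divisors, cm a g * cm b (N / g) =
          b l * ∑ g ∈ M.divisors, cm a g * cm b (M / g) := by
        rw [Finset.mul_sum]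
        refine Finset.sum_congr rfl fun g hg => ?_
        have hgd := Nat.dvd_of_mem_divisors hg
        have hg0 : M / g ≠ 0 := by
          have := Nat.div_pos (Nat.le_of_dvd (Nat.pos_of_ne_zero hM0) hgd)
            (Nat.pos_of_mem_divisors hg)
          omega
        rw [hM, Nat.mul_div_assoc _ hgd, t4_cm_mul b hl0 hg0, t4_cm_prime b hlp]
        ring
      have e2 : ∑ g ∈ M.divisors.image (l * ·), cm a g * cm b (N / g) =
          a l * ∑ g ∈ M.divisors, cm a g * cm b (M / g) := by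
        rw [Finset.sum_image (by
          intro x _ y _ hxy
          exact Nat.eq_of_mul_eq_mul_left (Nat.pos_of_ne_zero hl0) hxy), Finset.mul_sum]
        refine Finset.sum_congr rfl fun g hg => ?_
        have hg0 : g ≠ 0 := (Nat.pos_of_mem_divisors hg).ne'
        rw [hM, Nat.mul_div_mul_left _ _ (Nat.pos_of_ne_zero hl0), t4_cm_mul a hl0 hg0,
          t4_cm_prime a hlp]
        ring
      calc ∑ g ∈ N.divisors, cm a g * cm b (N / g)
          ≤ ∑ g ∈ M.divisors ∪ M.divisors.image (l * ·), cm a g * cm b (N / g) :=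
            Finset.sum_le_sum_of_subset_of_nonneg hsub fun g _ _ => hnn g
        _ ≤ ∑ g ∈ M.divisors, cm a g * cm b (N / g) +
            ∑ g ∈ M.divisors.image (l * ·), cm a g * cm b (N / g) := by
            rw [← Finset.sum_union_inter]
            have : 0 ≤ ∑ g ∈ M.divisors ∩ M.divisors.image (l * ·), cm a g * cm b (N / g) :=
              Finset.sum_nonneg fun g _ => hnn g
            linarith
        _ = (a l + b l) * ∑ g ∈ M.divisors, cm a g * cm b (M / g) := by rw [e1, e2]; ring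
        _ ≤ (a l + b l) * cm (fun l => a l + b l) M :=
            mul_le_mul_of_nonneg_left hI (add_pos (ha l) (hb l)).le
        _ = cm (fun l => a l + b l) N := by
            rw [hM, t4_cm_mul _ hl0 hM0, t4_cm_prime _ hlp]

theorem t4_mem {p : Par} {X : ℕ} {τ : Pol 5} (h : τ ∈ p.T X) : p.TS X τ := by
  unfold Par.T at h
  split_ifs at h with h'
  · simpa using h
  · simp at h

theorem t4_base {p : Par} {X : ℕ} {τ : Pol 5} (h : p.TS X τ) :
    τ.base.1 * τ.base.2.2 = τ.n 0 ^ 2 + 1 := by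
  have hd : τ.d 0 ≠ 0 := h.good.ne 0
  have hd' : 0 < (τ.d 0).natAbs := Int.natAbs_pos.2 hd
  obtain ⟨s, hs⟩ := h.good.d1 0
  obtain ⟨t, ht⟩ := h.good.d2 0
  have he := h.good.edge 0
  rw [show ((0 : Fin 5) + 1) = 1 by rfl] at ht he
  rw [hs, ht] at he
  have he2 : ((τ.n 0 : ℤ) ^ 2 + 1) = s * t := by
    have h2 : (((τ.n 0 : ℤ) ^ 2 + 1) - s * t) * τ.d 0 ^ 2 = 0 := by linear_combination he
    rcases mul_eq_zero.1 h2 with h3 | h3
    · linarith
    · exact absurd (pow_eq_zero_iff (by norm_num) |>.1 h3) hd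
  simp only [Pol.base]
  rw [hs, ht, Int.natAbs_mul, Int.natAbs_mul, Nat.mul_div_cancel_left _ hd',
    Nat.mul_div_cancel_left _ hd', ← Int.natAbs_mul, ← he2]
  have h4 : (τ.n 0 : ℤ) ^ 2 + 1 = ((τ.n 0 ^ 2 + 1 : ℕ) : ℤ) := by push_cast; ring
  rw [h4, Int.natAbs_natCast]

theorem t4_wn_pos (Y : ℝ) (l : ℕ) : 0 < wn Y l := by
  unfold wn
  split_ifs <;> norm_num

/-- block T4: the weights of the base forms over one `n` -/
theorem nu_pos_pr (p : Par) (X : ℕ) (y : ℕ × ℕ × ℕ) : 0 < p.nu X y :=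
  t4_cm_pos (t4_wn_pos _) _

theorem t4_v2 (n : ℕ) : (n ^ 2 + 1).factorization 2 ≤ 1 := by
  by_contra hcon
  push Not at hcon
  have h1 : 2 ^ 2 ∣ n ^ 2 + 1 :=
    (Nat.Prime.pow_dvd_iff_le_factorization Nat.prime_two (Nat.succ_ne_zero _)).2 hcon
  have h2 : (n ^ 2 + 1) % 4 = 0 := Nat.mod_eq_zero_of_dvd (by simpa using h1)
  have h3 : n % 4 = 0 ∨ n % 4 = 1 ∨ n % 4 = 2 ∨ n % 4 = 3 := by omega
  rw [Nat.add_mod, Nat.pow_mod] at h2
  rcases h3 with h | h | h | h <;> rw [h] at h2 <;> norm_num at h2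

theorem nu_sum_pr {p : Par} {κ : ℝ} (h : p.Ok κ) (ht : 0 < p.ta) :
    ∃ C : ℝ, ∃ X₀ : ℕ, ∀ X ≥ X₀, ∀ n : ℕ,
      ∑ y ∈ ((p.T X).image Pol.base).filter (fun y => y.2.1 = n), p.nu X y ≤ C := by
  refine ⟨2 * (2:ℝ) ^ (3 / p.ta), ⌈25 / p.c1 ^ 2⌉₊ + 2, fun X hX n => ?_⟩
  have hc := h.c10
  have hXR : 25 / p.c1 ^ 2 + 2 ≤ (X:ℝ) := by
    have h1 := Nat.le_ceil (25 / p.c1 ^ 2)
    have h2 : ((⌈25 / p.c1 ^ 2⌉₊ + 2 : ℕ) : ℝ) ≤ X := by exact_mod_cast hX
    push_cast at h2
    linarith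
  have h25 : 0 < 25 / p.c1 ^ 2 := by positivity
  have hX2 : (2:ℝ) ≤ X := by linarith
  have hlogX : 0 < Real.log X := Real.log_pos (by linarith)
  set S := ((p.T X).image Pol.base).filter (fun y => y.2.1 = n) with hS
  rcases S.eq_empty_or_nonempty with he | ⟨y₀, hy₀⟩
  · rw [he, Finset.sum_empty]
    positivity
  · have hmem : ∀ y ∈ S, y.1 * y.2.2 = n ^ 2 + 1 ∧ y.2.1 = n ∧ (n:ℝ) ≤ 5 / p.c1 * X := by
      intro y hy
      rw [hS, Finset.mem_filter, Finset.mem_image] at hy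
      obtain ⟨⟨τ, hτ, rfl⟩, hn⟩ := hy
      have hTS := t4_mem hτ
      have hb := t4_base hTS
      have hn' : τ.n 0 = n := hn
      refine ⟨by rw [hb, hn'], hn, ?_⟩
      have := (n_bound (by omega) h hTS 0).2
      rwa [hn'] at this
    have hnX := (hmem y₀ hy₀).2.2
    set N := n ^ 2 + 1 with hN
    have hN0 : N ≠ 0 := Nat.succ_ne_zero _
    have hNX : (N:ℝ) ≤ (X:ℝ) ^ 3 := by
      rw [hN]
      push_cast
      have h1 : (n:ℝ) ^ 2 ≤ (5 / p.c1 * X) ^ 2 := pow_le_pow_left₀ (Nat.cast_nonneg n) hnX 2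
      have h2 : (5 / p.c1 * (X:ℝ)) ^ 2 = 25 / p.c1 ^ 2 * (X:ℝ) ^ 2 := by
        rw [mul_pow, div_pow]; norm_num
      have h3 : (25 / p.c1 ^ 2 + 1) * (X:ℝ) ^ 2 ≤ (X:ℝ) ^ 3 := by
        calc (25 / p.c1 ^ 2 + 1) * (X:ℝ) ^ 2 ≤ X * (X:ℝ) ^ 2 := by gcongr; linarith
          _ = (X:ℝ) ^ 3 := by ring
      have h4 : (1:ℝ) ≤ (X:ℝ) ^ 2 := one_le_pow₀ (by linarith)
      linarith
    -- to divisors
    have hsum : ∑ y ∈ S, p.nu X y ≤
        ∑ g ∈ N.divisors, cm (wn (p.Y X)) g * cm (wn (p.Y X)) (N / g) := by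
      have hinj : Set.InjOn (fun y : ℕ × ℕ × ℕ => y.1) S := by
        intro y hy y' hy' hyy
        obtain ⟨a1, a2, -⟩ := hmem y hy
        obtain ⟨b1, b2, -⟩ := hmem y' hy'
        have hyy : y.1 = y'.1 := hyy
        have hy1 : y.1 ≠ 0 := by rintro h0; rw [h0, zero_mul] at a1; omega
        have : y.2.2 = y'.2.2 := by
          rw [← hyy] at b1
          exact Nat.eq_of_mul_eq_mul_left (Nat.pos_of_ne_zero hy1) (a1.trans b1.symm)
        exact Prod.ext hyy (Prod.ext (a2.trans b2.symm) this)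
      have e1 : ∑ y ∈ S, p.nu X y =
          ∑ g ∈ S.image (fun y => y.1), cm (wn (p.Y X)) g * cm (wn (p.Y X)) (N / g) := by
        rw [Finset.sum_image hinj]
        refine Finset.sum_congr rfl fun y hy => ?_
        obtain ⟨a1, a2, -⟩ := hmem y hy
        have hy1 : y.1 ≠ 0 := by rintro h0; rw [h0, zero_mul] at a1; omega
        have hy2 : y.2.2 ≠ 0 := by rintro h0; rw [h0, mul_zero] at a1; omega
        rw [Par.nu, a2, ← hN, ← a1, Nat.mul_div_cancel_left _ (Nat.pos_of_ne_zero hy1),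
          t4_cm_mul _ hy1 hy2]
      rw [e1]
      refine Finset.sum_le_sum_of_subset_of_nonneg ?_ fun g _ _ =>
        mul_nonneg (t4_cm_pos (t4_wn_pos _) _).le (t4_cm_pos (t4_wn_pos _) _).le
      intro g hg
      obtain ⟨y, hy, rfl⟩ := Finset.mem_image.1 hg
      exact Nat.mem_divisors.2 ⟨⟨y.2.2, (hmem y hy).1.symm⟩, hN0⟩
    refine hsum.trans ((t4_conv (t4_wn_pos _) (t4_wn_pos _) N hN0).trans ?_)
    set c : ℝ := Real.log 2 / (p.ta * Real.log X) with hcd
    have hlog2 : 0 < Real.log 2 := Real.log_pos (by norm_num)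
    have hc0 : 0 < c := by positivity
    have hle : cm (fun l => wn (p.Y X) l + wn (p.Y X) l) N ≤
        cm (fun l => (if l = 2 then (2:ℝ) else 1) * (l:ℝ) ^ c) N := by
      refine t4_cm_le (fun l => (add_pos (t4_wn_pos (p.Y X) l) (t4_wn_pos (p.Y X) l)).le) N ?_
      intro l hl
      have hl1 : (1:ℝ) ≤ (l:ℝ) := by exact_mod_cast hl.one_lt.le
      have hlc : (1:ℝ) ≤ (l:ℝ) ^ c := Real.one_le_rpow hl1 hc0.le
      by_cases h2 : l = 2
      · simp only [wn, h2, if_true]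
        rw [h2] at hlc
        push_cast at hlc ⊢
        linarith
      · simp only [wn, h2, if_false, one_mul]
        by_cases hY : (l:ℝ) ≤ p.Y X
        · simp only [hY, if_true]
          linarith
        · simp only [hY, if_false]
          push Not at hY
          have e1 : (p.Y X) ^ c = 2 := by
            rw [Par.Y, ← Real.rpow_mul (by linarith), hcd]
            have e2 : p.ta * (Real.log 2 / (p.ta * Real.log X)) = Real.log 2 / Real.log X := by
              field_simp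
            rw [e2, Real.rpow_def_of_pos (by linarith), mul_div_cancel₀ _ hlogX.ne',
              Real.exp_log (by norm_num)]
          have e3 : (p.Y X) ^ c ≤ (l:ℝ) ^ c :=
            Real.rpow_le_rpow (Real.rpow_nonneg (by linarith) _) hY.le hc0.le
          linarith
    refine hle.trans ?_
    rw [t4_cm_fmul, t4_cm_two, t4_cm_rpow c hN0]
    have f1 : (2:ℝ) ^ N.factorization 2 ≤ 2 := by
      calc (2:ℝ) ^ N.factorization 2 ≤ 2 ^ 1 := pow_le_pow_right₀ (by norm_num) (t4_v2 n)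
        _ = 2 := by norm_num
    have f2 : (N:ℝ) ^ c ≤ (2:ℝ) ^ (3 / p.ta) := by
      calc (N:ℝ) ^ c ≤ ((X:ℝ) ^ 3) ^ c := Real.rpow_le_rpow (Nat.cast_nonneg N) hNX hc0.le
        _ = (2:ℝ) ^ (3 / p.ta) := by
          rw [← Real.rpow_natCast, ← Real.rpow_mul (by linarith), Real.rpow_def_of_pos (by linarith),
            Real.rpow_def_of_pos (by norm_num), hcd]
          congr 1
          push_cast
          field_simp
    exact mul_le_mul f1 f2 (by positivity) (by norm_num)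

end Pool.Agent.PENT
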