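import Pool.Agent.Lib_helper97.PENT.FinalH
import Pool.Agent.Lib_helper15.PENT.LFin
import Pool.Agent.Lib_helper15.PFMF.DFin
import Pool.Agent.Lib_helper18.PENKF.PL8

/-!
# PENT: the pentagon theorem (helper97)
-/

set_option autoImplicit false

namespace Pool.Agent.PENT

/-- **THE PENTAGON THEOREM**: for every completely multiplicative `h : ℕ → {±1}` a positive
proportion of the `n ≤ x` has `h (n² + 1) = 1`, uniformly in `h` -/
theorem pentagon : ∃ c : ℝ, 0 < c ∧ ∃ x₀ : ℕ, ∀ h : ℕ → ℤ, CM h → ∀ x : ℕ, x₀ ≤ x →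
    c * x ≤ ((Finset.Icc 1 x).filter (fun n => h (n ^ 2 + 1) = 1)).card :=
  pentagon_of lower diag PENL.off_gen_pr PENL.off_small_pr PENL.off_large_pr

end Pool.Agent.PENT
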