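import Pool.Agent.Lib_helper97.PENT.TopB

/-!
# PENT: the final deduction (helper97)
-/

set_option autoImplicit false

namespace Pool.Agent.PENT

open Finset Filter

theorem fin_cls_mono {Tau B : Type} [DecidableEq B] (s : Finset Tau) {w : Tau → ℝ}
    (hw : ∀ τ, 0 ≤ w τ) (b : Tau → B) {ν : B → ℝ} (hν : ∀ y, 0 < ν y)
    (r r1 r2 r3 : Tau → Tau → Prop) (τ : Tau)
    (h : ∀ τ', r τ τ' → r1 τ τ' ∨ r2 τ τ' ∨ r3 τ τ') :
    cls s w b ν r τ ≤ cls s w b ν r1 τ + cls s w b ν r2 τ + cls s w b ν r3 τ := by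
  classical
  unfold cls
  rw [← add_div, ← add_div]
  apply div_le_div_of_nonneg_right _ (hν _).le
  have e : ∀ q : Tau → Tau → Prop, ∀ (d : DecidablePred fun τ' => b τ' = b τ ∧ q τ τ'),
      ∑ τ' ∈ @Finset.filter _ (fun τ' => b τ' = b τ ∧ q τ τ') d s, w τ' =
      ∑ τ' ∈ s, if b τ' = b τ ∧ q τ τ' then w τ' else 0 := by
    intro q d
    rw [Finset.sum_filter]
  rw [e r, e r1, e r2, e r3, ← Finset.sum_add_distrib, ← Finset.sum_add_distrib]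
  apply Finset.sum_le_sum
  intro τ' _
  have w0 := hw τ'
  by_cases hb : b τ' = b τ
  · by_cases hr : r τ τ'
    · rcases h τ' hr with h' | h' | h' <;>
      · rw [if_pos ⟨hb, hr⟩]
        by_cases g1 : r1 τ τ' <;> by_cases g2 : r2 τ τ' <;> by_cases g3 : r3 τ τ' <;>
          simp_all
    · rw [if_neg (fun h => hr h.2)]
      have : ∀ c : Prop, ∀ _ : Decidable c, 0 ≤ if c then w τ' else 0 := by
        intro c _; split_ifs <;> simp [w0]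
      exact add_nonneg (add_nonneg (this _ _) (this _ _)) (this _ _)
  · simp [hb]

theorem fin_w_nonneg (p : Par) (X : ℕ) (τ : Pol 5) : 0 ≤ p.w X τ := by
  unfold Par.w
  apply Finset.prod_nonneg
  intro j _
  apply mul_nonneg
  · unfold cm
    apply Finset.prod_nonneg
    intro l _
    apply pow_nonneg
    unfold wd
    split_ifs <;> norm_num
  · unfold cm
    apply Finset.prod_nonneg
    intro l _
    apply pow_nonneg
    unfold wy
    split_ifs <;> norm_num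

/-- the marginal bound for the edge `0` -/
theorem one_edge {p : Par} {κ : ℝ} (hOk : p.Ok κ)
    (ht : 0 < p.ta) {η : ℝ} (h0 : 0 < η) (h1 : η ≤ 1)
    (hD : ∃ C : ℝ, ∃ X₀ : ℕ, ∀ X ≥ X₀,
      ∑ τ ∈ p.T X, p.w X τ * (p.w X τ / p.nu X τ.base) ^ η ≤
        C * X * Real.log X ^ (-(5 / 2) * (1 + η) : ℝ))
    (hG : ∃ C : ℝ, ∃ X₀ : ℕ, ∀ X ≥ X₀,
      p.pairs X (fun τ τ' => τ.G τ' = 1) ≤ C * X * Real.log X ^ (-5 : ℝ))
    {δ : ℝ}
    (hS : ∃ X₀ : ℕ, ∀ X ≥ X₀,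
      p.pairs X (fun τ τ' => 1 < τ.G τ' ∧ (τ.G τ' : ℝ) ≤ (X : ℝ) ^ δ) ≤
        X * Real.log X ^ (-5 : ℝ))
    (hL : ∃ X₀ : ℕ, ∀ X ≥ X₀,
      p.pairs X (fun τ τ' => (X : ℝ) ^ δ < (τ.G τ' : ℝ) ∧ ¬ τ.same τ') ≤
        X * Real.log X ^ (-5 : ℝ))
    (hlow : ∃ c : ℝ, 0 < c ∧ ∃ X₀ : ℕ, ∀ X ≥ X₀,
      c * X * Real.log X ^ (-(5 / 2) : ℝ) ≤ ∑ τ ∈ p.T X, p.w X τ) {N : ℝ} (hN : 1 ≤ N) :
    ∃ K : ℝ, 0 < K ∧ ∃ X₀ : ℕ, ∀ X ≥ X₀, ∀ x : ℝ, (X : ℝ) ≤ x → x ≤ N * X → ∀ E : Finset ℕ,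
      ∑ n ∈ E, mar (p.T X) (p.w X) (fun τ => τ.n 0) n ^ (1 + η) ≤
        K * (∑ τ ∈ p.T X, p.w X τ) ^ (1 + η) * x ^ (-η) := by
  obtain ⟨CD, XD, hD⟩ := hD
  obtain ⟨CG, XG, hG⟩ := hG
  obtain ⟨XS, hS⟩ := hS
  obtain ⟨XL, hL⟩ := hL
  obtain ⟨c, hc, Xl, hlow⟩ := hlow
  obtain ⟨Cn, Xn, hnu⟩ := nu_sum hOk ht
  obtain ⟨m, hm0, Xm, hsame⟩ := same_class hOk
  set M : ℝ := -(5 / 2) with hM
  -- constants
  set K₁ : ℝ := m ^ η * |CD| * (c ^ (1 + η))⁻¹ * N ^ η with hK₁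
  set K₂ : ℝ := (|CG| + 2) * (c ^ 2)⁻¹ * N with hK₂
  have hcη : 0 < c ^ (1 + η) := Real.rpow_pos_of_pos hc _
  have hNη : 0 < N ^ η := Real.rpow_pos_of_pos (by linarith) _
  have hK₁0 : 0 ≤ K₁ := by
    have : 0 ≤ m ^ η := Real.rpow_nonneg hm0 _
    positivity
  have hK₂0 : 0 < K₂ := by positivity
  refine ⟨|Cn| ^ η * (K₁ + K₂ ^ η) + 1, by positivity,
    max 3 (max XD (max XG (max XS (max XL (max Xl (max Xn Xm)))))), ?_⟩
  intro X hX x hxX hxN E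
  simp only [ge_iff_le, max_le_iff] at hX
  obtain ⟨x3, xD, xG, xS, xL, xl, xn, xm⟩ := hX
  have hX0 : (0 : ℝ) < X := by
    have : (3 : ℝ) ≤ X := by exact_mod_cast x3
    linarith
  have hlog : 1 < Real.log (X : ℝ) := by
    have h3 : (3 : ℝ) ≤ X := by exact_mod_cast x3
    rw [Real.lt_log_iff_exp_lt hX0]
    linarith [Real.exp_one_lt_d9]
  have hl0 : 0 < Real.log (X : ℝ) := by linarith
  have hx0 : 0 < x := by linarith
  set S : ℝ := ∑ τ ∈ p.T X, p.w X τ with hSd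
  have hlX := hlow X xl
  have hLM : 0 < Real.log (X : ℝ) ^ M := Real.rpow_pos_of_pos hl0 _
  have hSpos : 0 < S := lt_of_lt_of_le (by positivity) hlX
  have hw := fin_w_nonneg p X
  have hν := nu_pos p X
  -- the diagonal
  have d1 := class_diag (p.T X) (p.w X) hw Pol.base (p.nu X) hν Pol.same (η := η) (m := m) (L := 1)
    h0 hm0 zero_le_one (hsame X xm)
  rw [mul_one] at d1
  have s1 : c ^ (1 + η) * (X * Real.log X ^ (M * (1 + η))) ≤ N ^ η * (S ^ (1 + η) * x ^ (-η)) := by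
    have a1 : (c * X * Real.log X ^ M) ^ (1 + η) ≤ S ^ (1 + η) :=
      Real.rpow_le_rpow (by positivity) hlX (by linarith)
    rw [Real.mul_rpow (by positivity) hLM.le, Real.mul_rpow hc.le hX0.le, ← Real.rpow_mul hl0.le,
      Real.rpow_add hX0, Real.rpow_one] at a1
    have a2 : (X : ℝ) ^ η * 1 ≥ 0 := by positivity
    have a3 : 1 ≤ N ^ η * ((X : ℝ) ^ η * x ^ (-η)) := by
      rw [Real.rpow_neg hx0.le]
      have b1 : x ^ η ≤ (N * X) ^ η := Real.rpow_le_rpow hx0.le hxN h0.le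
      rw [Real.mul_rpow (by linarith) hX0.le] at b1
      have b2 : 0 < x ^ η := Real.rpow_pos_of_pos hx0 _
      calc (1 : ℝ) = x ^ η * (x ^ η)⁻¹ := (mul_inv_cancel₀ b2.ne').symm
        _ ≤ (N ^ η * (X : ℝ) ^ η) * (x ^ η)⁻¹ :=
            mul_le_mul_of_nonneg_right b1 (inv_nonneg.2 b2.le)
        _ = _ := by ring
    have hLM2 : 0 < Real.log (X : ℝ) ^ (M * (1 + η)) := Real.rpow_pos_of_pos hl0 _
    calc c ^ (1 + η) * (X * Real.log X ^ (M * (1 + η)))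
        ≤ (c ^ (1 + η) * (X * Real.log X ^ (M * (1 + η)))) *
          (N ^ η * ((X : ℝ) ^ η * x ^ (-η))) := le_mul_of_one_le_right (by positivity) a3
      _ = N ^ η * ((c ^ (1 + η) * (X * (X : ℝ) ^ η) * Real.log X ^ (M * (1 + η))) * x ^ (-η)) := by
          ring
      _ ≤ N ^ η * (S ^ (1 + η) * x ^ (-η)) := by
          apply mul_le_mul_of_nonneg_left _ hNη.le
          exact mul_le_mul_of_nonneg_right a1 (Real.rpow_nonneg hx0.le _)
  have hDX : ∑ τ ∈ p.T X, p.w X τ * cls (p.T X) (p.w X) Pol.base (p.nu X) Pol.same τ ^ η ≤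
      K₁ * S ^ (1 + η) * x ^ (-η) := by
    refine d1.trans ?_
    have a1 : CD * X * Real.log X ^ (M * (1 + η)) ≤ |CD| * (X * Real.log X ^ (M * (1 + η))) := by
      calc CD * X * Real.log X ^ (M * (1 + η)) ≤ |CD| * X * Real.log X ^ (M * (1 + η)) := by
            apply mul_le_mul_of_nonneg_right _ (Real.rpow_nonneg hl0.le _)
            exact mul_le_mul_of_nonneg_right (le_abs_self _) hX0.le
        _ = _ := by ring
    have a2 := (hD X xD).trans a1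
    have a3 : m ^ η * (|CD| * (X * Real.log X ^ (M * (1 + η)))) ≤ K₁ * S ^ (1 + η) * x ^ (-η) := by
      have b1 : X * Real.log X ^ (M * (1 + η)) ≤ (c ^ (1 + η))⁻¹ * (N ^ η * (S ^ (1 + η) * x ^ (-η))) := by
        rw [le_inv_mul_iff₀ hcη]
        exact s1
      calc m ^ η * (|CD| * (X * Real.log X ^ (M * (1 + η))))
          ≤ m ^ η * (|CD| * ((c ^ (1 + η))⁻¹ * (N ^ η * (S ^ (1 + η) * x ^ (-η))))) := by
            apply mul_le_mul_of_nonneg_left _ (Real.rpow_nonneg hm0 _)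
            exact mul_le_mul_of_nonneg_left b1 (abs_nonneg _)
        _ = K₁ * S ^ (1 + η) * x ^ (-η) := by rw [hK₁]; ring
    exact (mul_le_mul_of_nonneg_left a2 (Real.rpow_nonneg hm0 _)).trans a3
  -- the other pairs
  have hPX : ∑ τ ∈ p.T X, p.w X τ * cls (p.T X) (p.w X) Pol.base (p.nu X)
      (fun τ τ' => ¬ Pol.same τ τ') τ ≤ K₂ * S ^ 2 / x := by
    have a0 : ∑ τ ∈ p.T X, p.w X τ * cls (p.T X) (p.w X) Pol.base (p.nu X)
        (fun τ τ' => ¬ Pol.same τ τ') τ ≤ p.pairs X (fun τ τ' => τ.G τ' = 1) +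
          p.pairs X (fun τ τ' => 1 < τ.G τ' ∧ (τ.G τ' : ℝ) ≤ (X : ℝ) ^ δ) +
          p.pairs X (fun τ τ' => (X : ℝ) ^ δ < (τ.G τ' : ℝ) ∧ ¬ τ.same τ') := by
      unfold Par.pairs
      rw [← Finset.sum_add_distrib, ← Finset.sum_add_distrib]
      apply Finset.sum_le_sum
      intro τ hτ
      rw [← mul_add, ← mul_add]
      apply mul_le_mul_of_nonneg_left _ (hw τ)
      have hτT := mem_T.1 hτ
      apply fin_cls_mono (p.T X) hw Pol.base hν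
      intro τ2 hr
      have g0 : τ.G τ2 ≠ 0 := by
        intro g0
        unfold Pol.G at g0
        rw [Nat.gcd_eq_zero_iff, Nat.gcd_eq_zero_iff] at g0
        have := Int.natAbs_eq_zero.1 g0.1.1
        have n0 := hτT.good.ne 0
        have n2 := hτT.good.ne 2
        have n3 := hτT.good.ne 3
        simp only [mul_eq_zero] at this
        tauto
      by_cases g1 : τ.G τ2 = 1
      · exact Or.inl g1
      · by_cases g2 : (τ.G τ2 : ℝ) ≤ (X : ℝ) ^ δ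
        · exact Or.inr (Or.inl ⟨by omega, g2⟩)
        · exact Or.inr (Or.inr ⟨not_le.1 g2, hr⟩)
    have b1 := hG X xG
    have b2 := hS X xS
    have b3 := hL X xL
    have hM5 : (-5 : ℝ) = 2 * M := by rw [hM]; norm_num
    rw [hM5] at b1 b2 b3
    have b4 : CG * X * Real.log X ^ (2 * M) ≤ |CG| * (X * Real.log X ^ (2 * M)) := by
      rw [← mul_assoc]
      apply mul_le_mul_of_nonneg_right _ (Real.rpow_nonneg hl0.le _)
      exact mul_le_mul_of_nonneg_right (le_abs_self _) hX0.le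
    have b5 : X * Real.log X ^ (2 * M) ≤ (c ^ 2)⁻¹ * N * (S ^ 2 / x) := by
      have c1 : (c * X * Real.log X ^ M) ^ 2 ≤ S ^ 2 := by
        apply pow_le_pow_left₀ (by positivity) hlX
      have c2 : Real.log (X : ℝ) ^ (2 * M) = (Real.log X ^ M) ^ 2 := by
        rw [← Real.rpow_natCast, ← Real.rpow_mul hl0.le]; norm_num
      rw [c2]
      have c3 : (X : ℝ) ≤ N * (X ^ 2 / x) := by
        rw [mul_div_assoc', le_div_iff₀ hx0]
        nlinarith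
      calc X * (Real.log (X : ℝ) ^ M) ^ 2 ≤ (N * ((X : ℝ) ^ 2 / x)) * (Real.log (X : ℝ) ^ M) ^ 2 :=
            mul_le_mul_of_nonneg_right c3 (by positivity)
        _ = (c ^ 2)⁻¹ * N * ((c * X * Real.log X ^ M) ^ 2 / x) := by
            field_simp
        _ ≤ (c ^ 2)⁻¹ * N * (S ^ 2 / x) := by
            apply mul_le_mul_of_nonneg_left _ (by positivity)
            exact div_le_div_of_nonneg_right c1 hx0.le
    calc _ ≤ _ := a0
      _ ≤ (|CG| + 2) * (X * Real.log X ^ (2 * M)) := by linarith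
      _ ≤ (|CG| + 2) * ((c ^ 2)⁻¹ * N * (S ^ 2 / x)) :=
          mul_le_mul_of_nonneg_left b5 (by positivity)
      _ = K₂ * S ^ 2 / x := by rw [hK₂]; ring
  have hfin := moment (p.T X) (p.w X) hw Pol.base (fun y => y.2.1) (p.nu X) hν Pol.same
    (C := |Cn|) h0 h1 hx0 (fun n => (hnu X xn n).trans (le_abs_self _)) hK₂0.le hSpos hDX hPX E
  refine hfin.trans ?_
  have hpos : 0 ≤ S ^ (1 + η) * x ^ (-η) := by
    exact mul_nonneg (Real.rpow_nonneg hSpos.le _) (Real.rpow_nonneg hx0.le _)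
  calc |Cn| ^ η * (K₁ + K₂ ^ η) * S ^ (1 + η) * x ^ (-η)
      = |Cn| ^ η * (K₁ + K₂ ^ η) * (S ^ (1 + η) * x ^ (-η)) := by ring
    _ ≤ (|Cn| ^ η * (K₁ + K₂ ^ η) + 1) * (S ^ (1 + η) * x ^ (-η)) :=
        mul_le_mul_of_nonneg_right (by linarith) hpos
    _ = _ := by ring

theorem fin_marg (p : Par) (X : ℕ) (i : Fin 5) (n : ℕ) :
    mar (p.T X) (p.w X) (fun τ => τ.n i) n =
      mar ((p.rot i).T X) ((p.rot i).w X) (fun τ => τ.n 0) n := by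
  classical
  unfold mar
  apply Finset.sum_bij (fun τ _ => τ.rot i)
  · intro τ hτ
    rw [Finset.mem_filter] at hτ ⊢
    exact ⟨mem_T.2 (TS_rot i (mem_T.1 hτ.1)), (n_rot i τ).trans hτ.2⟩
  · intro τ _ τ' _ he
    exact rot_inj i he
  · intro τ hτ
    rw [Finset.mem_filter] at hτ
    refine ⟨τ.rot (-i), ?_, rot_rot_neg i τ⟩
    rw [Finset.mem_filter]
    have h1 := TS_rot (-i) (mem_T.1 hτ.1)
    rw [par_rot_rot_neg] at h1
    refine ⟨mem_T.2 h1, ?_⟩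
    have h2 := n_rot i (τ.rot (-i))
    rw [rot_rot_neg] at h2
    exact h2.symm.trans hτ.2
  · intro τ _
    exact (w_rot p X i τ).symm

theorem fin_mass (p : Par) (X : ℕ) (i : Fin 5) :
    ∑ τ ∈ (p.rot i).T X, (p.rot i).w X τ = ∑ τ ∈ p.T X, p.w X τ := by
  classical
  symm
  apply Finset.sum_bij (fun τ _ => τ.rot i)
  · intro τ hτ
    exact mem_T.2 (TS_rot i (mem_T.1 hτ))
  · intro τ _ τ' _ he
    exact rot_inj i he
  · intro τ hτ
    refine ⟨τ.rot (-i), ?_, rot_rot_neg i τ⟩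
    have h1 := TS_rot (-i) (mem_T.1 hτ)
    rw [par_rot_rot_neg] at h1
    exact mem_T.2 h1
  · intro τ _
    exact (w_rot p X i τ).symm

theorem ok_mono {p : Par} {κ κ' : ℝ} (h : p.Ok κ) (hk : κ ≤ κ') : p.Ok κ' :=
  { h with ek := fun j => (h.ek j).trans hk }

theorem ok_at {p : Par} {κ : ℝ} (h : p.Ok κ) (t : ℝ) : (p.at' t).Ok κ :=
  { ep0 := h.ep0, e4 := h.e4, gap := h.gap, ek := h.ek, c10 := h.c10, c11 := h.c11, sg1 := h.sg1 }

/-- the statement of the lower bound -/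
def LowerSt : Prop := ∀ κ : ℝ, 0 < κ → ∃ p : Par, p.Ok κ ∧ ∃ t₁ : ℝ, 0 < t₁ ∧
    ∀ t : ℝ, 0 < t → t ≤ t₁ → ∃ c : ℝ, 0 < c ∧ ∃ X₀ : ℕ, ∀ X ≥ X₀,
      c * X * Real.log X ^ (-(5 / 2) : ℝ) ≤ ∑ τ ∈ (p.at' t).T X, (p.at' t).w X τ

/-- the statement of the diagonal -/
def DiagSt : Prop := ∃ κ : ℝ, 0 < κ ∧ ∀ p : Par, p.Ok κ →
    ∃ t₁ : ℝ, 0 < t₁ ∧ ∀ t : ℝ, 0 < t → t ≤ t₁ → ∃ C : ℝ, ∃ X₀ : ℕ, ∀ X ≥ X₀,
      ∑ τ ∈ (p.at' t).T X, (p.at' t).w X τ *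
        ((p.at' t).w X τ / (p.at' t).nu X τ.base) ^ (1 / 20 : ℝ) ≤
        C * X * Real.log X ^ (-(5 / 2) * (1 + 1 / 20) : ℝ)

/-- the pairs without coincidences -/
def GenSt : Prop := ∃ κ : ℝ, 0 < κ ∧ ∀ p : Par, p.Ok κ →
    ∃ t₁ : ℝ, 0 < t₁ ∧ ∀ t : ℝ, 0 < t → t ≤ t₁ → ∃ C : ℝ, ∃ X₀ : ℕ, ∀ X ≥ X₀,
      (p.at' t).pairs X (fun τ τ' => τ.G τ' = 1) ≤ C * X * Real.log X ^ (-5 : ℝ)

/-- the pairs with few coincidences -/
def SmallSt : Prop := ∃ κ : ℝ, 0 < κ ∧ ∀ p : Par, p.Ok κ →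
    ∃ t₁ : ℝ, 0 < t₁ ∧ ∀ t : ℝ, 0 < t → t ≤ t₁ → ∃ X₀ : ℕ, ∀ X ≥ X₀,
      (p.at' t).pairs X (fun τ τ' => 1 < τ.G τ' ∧ (τ.G τ' : ℝ) ≤ (X : ℝ) ^ (p.ep / 8)) ≤
        X * Real.log X ^ (-5 : ℝ)

/-- the pairs with many coincidences -/
def LargeSt : Prop := ∃ κ : ℝ, 0 < κ ∧ ∀ p : Par, p.Ok κ →
    ∃ t₁ : ℝ, 0 < t₁ ∧ ∀ t : ℝ, 0 < t → t ≤ t₁ → ∃ X₀ : ℕ, ∀ X ≥ X₀,
      (p.at' t).pairs X (fun τ τ' => (X : ℝ) ^ (p.ep / 8) < (τ.G τ' : ℝ) ∧ ¬ τ.same τ') ≤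
        X * Real.log X ^ (-5 : ℝ)

/-- THE PENTAGON THEOREM: for every completely multiplicative `h : ℕ → {±1}` a positive proportion
of the `n ≤ x` has `h (n² + 1) = 1`, uniformly in `h` -/
theorem pentagon_of (hlower : LowerSt) (hdiag : DiagSt) (hgen : GenSt) (hsmall : SmallSt)
    (hlarge : LargeSt) : ∃ c : ℝ, 0 < c ∧ ∃ x₀ : ℕ, ∀ h : ℕ → ℤ, CM h → ∀ x : ℕ, x₀ ≤ x →
    c * x ≤ ((Finset.Icc 1 x).filter (fun n => h (n ^ 2 + 1) = 1)).card := by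
  obtain ⟨κD, hκD, hD⟩ := hdiag
  obtain ⟨κG, hκG, hG⟩ := hgen
  obtain ⟨κS, hκS, hS⟩ := hsmall
  obtain ⟨κL, hκL, hL⟩ := hlarge
  set κ : ℝ := min (min κD κG) (min κS κL) with hκ
  have hκ0 : 0 < κ := by
    rw [hκ]; simp [hκD, hκG, hκS, hκL]
  have k1 : κ ≤ κD := (min_le_left _ _).trans (min_le_left _ _)
  have k2 : κ ≤ κG := (min_le_left _ _).trans (min_le_right _ _)
  have k3 : κ ≤ κS := (min_le_right _ _).trans (min_le_left _ _)
  have k4 : κ ≤ κL := (min_le_right _ _).trans (min_le_right _ _)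
  obtain ⟨p, hOk, t0, ht0, hlow⟩ := hlower κ hκ0
  have hOki : ∀ i, (p.rot i).Ok κ := fun i => Ok_rot hOk i
  choose tD htD hD using fun i => hD (p.rot i) (ok_mono (hOki i) k1)
  choose tG htG hG using fun i => hG (p.rot i) (ok_mono (hOki i) k2)
  choose tS htS hS using fun i => hS (p.rot i) (ok_mono (hOki i) k3)
  choose tL htL hL using fun i => hL (p.rot i) (ok_mono (hOki i) k4)
  obtain ⟨t, ht, e0, eD, eG, eS, eL⟩ : ∃ t : ℝ, 0 < t ∧ t ≤ t0 ∧ (∀ i, t ≤ tD i) ∧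
      (∀ i, t ≤ tG i) ∧ (∀ i, t ≤ tS i) ∧ (∀ i, t ≤ tL i) := by
    have key : ∀ f : Fin 5 → ℝ, (∀ i, 0 < f i) → ∃ m : ℝ, 0 < m ∧ ∀ i, m ≤ f i := by
      intro f hf
      refine ⟨Finset.univ.inf' Finset.univ_nonempty f, ?_, fun i => Finset.inf'_le _ (mem_univ i)⟩
      rw [Finset.lt_inf'_iff]
      exact fun i _ => hf i
    obtain ⟨mD, hmD, aD⟩ := key tD htD
    obtain ⟨mG, hmG, aG⟩ := key tG htG
    obtain ⟨mS, hmS, aS⟩ := key tS htS
    obtain ⟨mL, hmL, aL⟩ := key tL htL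
    refine ⟨min t0 (min (min mD mG) (min mS mL)), by simp [ht0, hmD, hmG, hmS, hmL],
      min_le_left _ _, fun i => le_trans ?_ (aD i), fun i => le_trans ?_ (aG i),
      fun i => le_trans ?_ (aS i), fun i => le_trans ?_ (aL i)⟩ <;> simp
  obtain ⟨c, hc, Xl, hlow⟩ := hlow t ht e0
  set N : ℕ := ⌈5 / p.c1⌉₊ with hN
  have hc1 := hOk.c10
  have hN1 : 1 ≤ N := by
    rw [hN, Nat.one_le_ceil_iff]; positivity
  have hedge : ∀ i, ∃ K : ℝ, 0 < K ∧ ∃ X₀ : ℕ, ∀ X ≥ X₀, ∀ x : ℝ, (X : ℝ) ≤ x →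
      x ≤ (2 * N : ℝ) * X → ∀ E : Finset ℕ,
      ∑ n ∈ E, mar ((p.at' t).T X) ((p.at' t).w X) (fun τ => τ.n i) n ^ (1 + (1 / 20 : ℝ)) ≤
        K * (∑ τ ∈ (p.at' t).T X, (p.at' t).w X τ) ^ (1 + (1 / 20 : ℝ)) *
          x ^ (-(1 / 20 : ℝ)) := by
    intro i
    obtain ⟨K, hK, X₀, hX₀⟩ := one_edge (p := (p.rot i).at' t) (ok_at (hOki i) t) ht
      (η := 1 / 20) (by norm_num) (by norm_num)
      (hD i t ht (eD i)) (hG i t ht (eG i)) (hS i t ht (eS i)) (hL i t ht (eL i))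
      ⟨c, hc, Xl, fun X hX => (hlow X hX).trans (fin_mass (p.at' t) X i).symm.le⟩
      (N := 2 * N) (by
        have : (1 : ℝ) ≤ N := by exact_mod_cast hN1
        linarith)
    refine ⟨K, hK, X₀, fun X hX x h1 h2 E => ?_⟩
    have h3 := hX₀ X hX x h1 h2 E
    have e1 : ∑ τ ∈ ((p.rot i).at' t).T X, ((p.rot i).at' t).w X τ =
        ∑ τ ∈ (p.at' t).T X, (p.at' t).w X τ := fin_mass (p.at' t) X i
    rw [e1] at h3
    refine le_trans (le_of_eq ?_) h3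
    apply Finset.sum_congr rfl
    intro n _
    rw [fin_marg (p.at' t) X i n]
    rfl
  choose K hK X₀ hX₀ using hedge
  obtain ⟨K', hK', hKK⟩ : ∃ K' : ℝ, 0 < K' ∧ ∀ i, K i ≤ K' := by
    refine ⟨Finset.univ.sup' Finset.univ_nonempty K, ?_, fun i => Finset.le_sup' _ (mem_univ i)⟩
    rw [Finset.lt_sup'_iff]
    exact ⟨0, mem_univ _, hK 0⟩
  refine ⟨(((5 : ℕ) : ℝ) ^ (1 + (1 / 20 : ℝ)) * K') ^ (-(1 / (1 / 20 : ℝ))), by positivity, ?_⟩
  obtain ⟨XM, hXM⟩ : ∃ XM : ℕ, ∀ i, X₀ i ≤ XM :=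
    ⟨Finset.univ.sup X₀, fun i => Finset.le_sup (mem_univ i)⟩
  refine ⟨N * (XM + Xl + 3), fun h hh x hx => ?_⟩
  set X : ℕ := x / N with hXd
  have hN0 : 0 < N := hN1
  have hXge : XM + Xl + 3 ≤ X := by
    rw [hXd, Nat.le_div_iff_mul_le hN0, mul_comm]
    exact hx
  have hXx : N * X ≤ x := Nat.mul_div_le x N
  have hxX : x < N * X + N := by
    have := Nat.lt_mul_div_succ x hN0
    rw [hXd]
    calc x < N * (x / N + 1) := this
      _ = N * (x / N) + N := by ring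
  have r1 : (X : ℝ) ≤ x := by
    have : X ≤ x := le_trans (Nat.le_mul_of_pos_left X hN0) hXx
    exact_mod_cast this
  have r2 : (x : ℝ) ≤ (2 * N : ℝ) * X := by
    have : x ≤ 2 * N * X := by nlinarith
    exact_mod_cast this
  have hx0 : 0 < x := by
    have : 0 < N * X := Nat.mul_pos hN0 (by omega)
    omega
  have hX1 : 1 ≤ X := by omega
  have hlX := hlow X (by omega)
  have hlog : 0 < Real.log (X : ℝ) := by
    apply Real.log_pos
    have : 2 ≤ X := by omega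
    have : (2 : ℝ) ≤ X := by exact_mod_cast this
    linarith
  have hX0 : (0 : ℝ) < X := by exact_mod_cast hX1
  have hSpos : 0 < ∑ τ ∈ (p.at' t).T X, (p.at' t).w X τ := by
    refine lt_of_lt_of_le ?_ hlX
    have := Real.rpow_pos_of_pos hlog (-(5 / 2))
    positivity
  have hfin := share hh (by decide : Odd 5) ((p.at' t).T X) ((p.at' t).w X)
    (fin_w_nonneg (p.at' t) X) x hx0 (fun τ hτ => (mem_T.1 hτ).good) (fun τ hτ j => by
      obtain ⟨a1, a2⟩ := n_bound hX1 (ok_at hOk t) (mem_T.1 hτ) j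
      refine ⟨a1, ?_⟩
      have a3 : (τ.n j : ℝ) ≤ x := by
        refine a2.trans ?_
        have a4 : 5 / p.c1 ≤ N := Nat.le_ceil _
        calc 5 / p.c1 * (X : ℝ) ≤ N * X := mul_le_mul_of_nonneg_right a4 hX0.le
          _ ≤ x := by exact_mod_cast hXx
      exact_mod_cast a3) (η := 1 / 20) (K := K') (by norm_num) hK' hSpos (fun i E => by
      have := hX₀ i X (by have := hXM i; omega) x r1 r2 E
      refine this.trans ?_
      apply mul_le_mul_of_nonneg_right _ (Real.rpow_nonneg (Nat.cast_nonneg _) _)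
      exact mul_le_mul_of_nonneg_right (hKK i) (Real.rpow_nonneg hSpos.le _))
  rw [mul_comm]
  exact hfin

end Pool.Agent.PENT
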